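import Pool.Agent.helper97.IRO.Spec

set_option autoImplicit false

/-!
# Row G4: elements of `F` with prescribed germs at the ends (MP_90e158_lc)
-/

open MeasureTheory Pool.Agent.LOF

namespace Pool.Agent.IRO

/-- the copy of `X0` on `[c, c + 1/2^m]` -/
noncomputable def G4_g (m : ℕ) (c : ℝ) : ℝ ≃o ℝ := (Aff m c)⁻¹ * (X0 * Aff m c)

theorem G4_apply (m : ℕ) (c t : ℝ) : G4_g m c t = X0 (2 ^ m * (t - c)) / 2 ^ m + c := rfl

theorem G4_low (m : ℕ) (c t : ℝ) (ht : t ≤ c) : G4_g m c t = t := by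
  have hm : (0:ℝ) < 2 ^ m := by positivity
  rw [G4_apply, X0_apply, if_pos]
  · field_simp; ring
  · have : t - c ≤ 0 := by linarith
    exact mul_nonpos_of_nonneg_of_nonpos hm.le this

theorem G4_high (m : ℕ) (c t : ℝ) (ht : c + 1 / 2 ^ m ≤ t) : G4_g m c t = t := by
  have hm : (0:ℝ) < 2 ^ m := by positivity
  have i1 : 1 ≤ 2 ^ m * (t - c) := by
    have h1 : (1:ℝ) / 2 ^ m ≤ t - c := by linarith
    rw [div_le_iff₀ hm] at h1
    linarith [mul_comm ((2:ℝ) ^ m) (t - c)]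
  have i2 : X0 (2 ^ m * (t - c)) = 2 ^ m * (t - c) := by
    rw [X0_apply]
    split_ifs <;> linarith
  rw [G4_apply, i2]
  field_simp; ring

theorem G4_mem (m : ℕ) (c : ℝ) (hc : IsDyadic c) (hc0 : 0 ≤ c) (hc1 : c + 1 / 2 ^ m ≤ 1) :
    G4_g m c ∈ F := by
  refine ⟨?_, ?_⟩
  · intro x hx
    rw [Set.mem_Ioo, not_and_or, not_lt, not_lt] at hx
    rcases hx with hx | hx
    · exact G4_low m c x (hx.trans hc0)
    · exact G4_high m c x (hc1.trans hx)
  · refine ⟨_, ?_, ((Aff_pl m c).inv).mul (X0_pl.mul (Aff_pl m c))⟩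
    have hd1 : ∀ t, IsDyadic t → IsDyadic (((Aff m c)⁻¹ : ℝ ≃o ℝ) t) := by
      intro t ht
      rw [Aff_inv_apply]
      have : t / 2 ^ m = 2 ^ (-(m:ℤ)) * t := by
        rw [zpow_neg, zpow_natCast]; field_simp
      rw [this]
      exact (ht.pow_mul _).add hc
    intro b hb
    rw [Finset.mem_union] at hb
    rcases hb with hb | hb
    · rw [Finset.mem_union] at hb
      rcases hb with hb | hb
      · simp at hb
      · rw [Finset.mem_image] at hb
        obtain ⟨c, hc, rfl⟩ := hb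
        refine hd1 _ ?_
        simp only [Finset.mem_insert, Finset.mem_singleton] at hc
        rcases hc with rfl | rfl | rfl | rfl
        · simpa using IsDyadic.int 0
        · exact ⟨1, 1, by norm_num⟩
        · exact ⟨3, 2, by norm_num⟩
        · simpa using IsDyadic.int 1
    · simp at hb

theorem G4_FI (m : ℕ) (c : ℝ) (h : G4_g m c ∈ F) :
    (⟨G4_g m c, h⟩ : F) ∈ FI c (c + 1 / 2 ^ m) := by
  intro x hx
  rw [Set.mem_Ioo, not_and_or, not_lt, not_lt] at hx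
  rcases hx with hx | hx
  · exact G4_low m c x hx
  · exact G4_high m c x hx

theorem G4_gL (m : ℕ) (c : ℝ) : gL (G4_g m c) (c + 1 / 2 ^ m) 1 := by
  have hm : (0:ℝ) < 2 ^ m := by positivity
  refine ⟨c + 3 / 4 / 2 ^ m, ?_, fun z hz1 hz2 => ?_⟩
  · have : (3/4 : ℝ) / 2 ^ m < 1 / 2 ^ m := by
      rw [div_lt_div_iff_of_pos_right hm]; norm_num
    linarith
  · have i1 : 3/4 < 2 ^ m * (z - c) := by
      have h3 : 3 / 4 / 2 ^ m < z - c := by linarith
      rw [div_lt_iff₀ hm] at h3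
      linarith [mul_comm ((2:ℝ) ^ m) (z - c)]
    have i2 : 2 ^ m * (z - c) ≤ 1 := by
      have h3 : z - c ≤ 1 / 2 ^ m := by linarith
      rw [le_div_iff₀ hm] at h3
      linarith [mul_comm ((2:ℝ) ^ m) (z - c)]
    have i3 : X0 (2 ^ m * (z - c)) = 2 * (2 ^ m * (z - c)) - 1 := by
      rw [X0_apply]
      split_ifs <;> linarith
    rw [G4_apply, i3, zpow_one]
    field_simp
    ring

theorem G4_gR (m : ℕ) (c : ℝ) : gR (G4_g m c)⁻¹ c 1 := by
  have hm : (0:ℝ) < 2 ^ m := by positivity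
  refine ⟨c + 1 / 4 / 2 ^ m, ?_, fun z hz1 hz2 => ?_⟩
  · have : (0 : ℝ) < 1 / 4 / 2 ^ m := by positivity
    linarith
  · show (G4_g m c).symm z = _
    rw [OrderIso.symm_apply_eq, zpow_one]
    have i1 : 0 ≤ 2 ^ m * (z - c) := mul_nonneg hm.le (by linarith)
    have i2 : 2 ^ m * (z - c) < 1 / 4 := by
      have h3 : z - c < 1 / 4 / 2 ^ m := by linarith
      rw [lt_div_iff₀ hm] at h3
      linarith [mul_comm ((2:ℝ) ^ m) (z - c)]
    have i4 : (2:ℝ) ^ m * (c + 2 * (z - c) - c) = 2 * (2 ^ m * (z - c)) := by ring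
    have i3 : X0 (2 ^ m * (c + 2 * (z - c) - c)) = 2 ^ m * (z - c) := by
      rw [i4, X0_apply]
      split_ifs <;> linarith
    rw [G4_apply, i3]
    field_simp
    ring

theorem G4_dy (m : ℕ) : IsDyadic (1 / 2 ^ m) := ⟨1, m, by norm_num⟩

/-- Elements with prescribed germs. -/
theorem G4 : G4_stmt := by
  intro a b ha hab hb
  obtain ⟨m, hm⟩ : ∃ m : ℕ, 1 / (2:ℝ) ^ m < b - a := by
    obtain ⟨m, hm⟩ := exists_pow_lt_of_lt_one (sub_pos.2 hab) (by norm_num : (1 / 2 : ℝ) < 1)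
    exact ⟨m, by rwa [one_div_pow] at hm⟩
  have hm0 : (0:ℝ) < 1 / 2 ^ m := by positivity
  refine ⟨fun hbd => ?_, fun had => ?_⟩
  · have hc : IsDyadic (b - 1 / 2 ^ m) := hbd.sub (G4_dy m)
    have e : b - 1 / 2 ^ m + 1 / 2 ^ m = b := by ring
    have hF := G4_mem m (b - 1 / 2 ^ m) hc (by linarith) (by linarith)
    refine ⟨b - 1 / 2 ^ m, hc, by linarith, by linarith, ⟨_, hF⟩, ?_, ?_⟩
    · have := G4_FI m (b - 1 / 2 ^ m) hF
      rwa [e] at this
    · have := G4_gL m (b - 1 / 2 ^ m)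
      rwa [e] at this
  · have hc : IsDyadic (a + 1 / 2 ^ m) := had.add (G4_dy m)
    have hF := G4_mem m a had ha (by linarith)
    refine ⟨a + 1 / 2 ^ m, hc, by linarith, by linarith, (⟨_, hF⟩ : F)⁻¹,
      (FI _ _).inv_mem (G4_FI m a hF), G4_gR m a⟩

end Pool.Agent.IRO
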